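import Pool.Agent.helper55.ZI.Spec2

/-!
# zi:TOW: the uniform module with zero socle
-/

set_option autoImplicit false

namespace Pool.Agent.helper5.ZI

open Pool.Agent.ZI

universe u

theorem TOW_schur {A V : Type u} [Ring A] [AddCommGroup V] [Module A V] [IsSimpleModule A V]
    (l : V →ₗ[A] V) (v : V) (hv : v ≠ 0) (h : l v = 0) : l = 0 := by
  rcases LinearMap.injective_or_eq_zero l with h1 | h1
  · exact absurd (h1 (by rw [h, map_zero])) hv
  · exact h1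

theorem TOW_small {A V : Type u} [Ring A] [AddCommGroup V] [Module A V] [IsSimpleModule A V]
    {k : ℕ} (y : Fin (k + 1) → V) (hy : y ≠ 0) : Small A y k := by
  obtain ⟨i₀, hi₀⟩ := Function.ne_iff.1 hy
  refine ⟨Finset.univ.erase i₀, ?_, ?_⟩
  · rw [Finset.card_erase_of_mem (Finset.mem_univ _), Finset.card_univ, Fintype.card_fin]
    omega
  · intro l hl hsum i
    have h1 : ∑ i, l i (y i) = l i₀ (y i₀) := by
      refine Finset.sum_eq_single i₀ (fun j _ hj => ?_) (fun h => absurd (Finset.mem_univ _) h)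
      rw [hl j (Finset.mem_erase.2 ⟨hj, Finset.mem_univ _⟩)]
      rfl
    rw [h1] at hsum
    by_cases h : i = i₀
    · rw [h]
      exact TOW_schur _ _ hi₀ hsum
    · exact hl i (Finset.mem_erase.2 ⟨h, Finset.mem_univ _⟩)

section

variable {R : Type u} [Ring R] {S : ℕ → Subring R} {hS : Monotone S} {T : Type u}
  [AddCommGroup T] [Module R T] {s₀ : T} {m : ℕ → ℕ} {s : ℕ → T}

theorem TOW_mem (hseq : SeqData S hS s₀ m s) (k : ℕ) {r : R} (hr : r ∈ S (m k)) (i : ℕ)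
    (hi : i ≤ k) : r • s i ∈ VV S s₀ (m k) := by
  have h1 := (hseq.2.2.2 k).1 i hi
  exact (VV S s₀ (m k)).smul_mem (⟨r, hr⟩ : S (m k)) h1

theorem TOW_step (hseq : SeqData S hS s₀ m s) (k : ℕ) {r : R} (hr : r ∈ S (m k))
    (h0 : ∀ i ≤ k, r • s i = 0) : r • s (k + 1) = 0 := by
  obtain ⟨hmem, hm, ι, g, hι, -, hg⟩ := hseq.2.2.2 k
  have h1 := hg (fun i => ⟨s i, hmem i (Nat.lt_succ_iff.1 i.2)⟩) (fun i => rfl)
  rw [h1]
  have h3 : ∀ i : Fin (k + 1), (rinc hS hm ⟨r, hr⟩) •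
      g i ⟨s i, hmem i (Nat.lt_succ_iff.1 i.2)⟩ = 0 := by
    intro i
    rw [← (g i).map_smulₛₗ]
    have h4 : (⟨r, hr⟩ : S (m k)) •
        (⟨s i, hmem i (Nat.lt_succ_iff.1 i.2)⟩ : VV S s₀ (m k)) = 0 :=
      Subtype.ext (h0 i (Nat.lt_succ_iff.1 i.2))
    rw [h4, map_zero]
  have h2 : (rinc hS hm ⟨r, hr⟩) •
      (∑ i : Fin (k + 1), g i ⟨s i, hmem i (Nat.lt_succ_iff.1 i.2)⟩) = 0 := by
    rw [Finset.smul_sum]
    exact Finset.sum_eq_zero fun i _ => h3 i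
  exact congrArg Subtype.val h2

theorem TOW_mono (hseq : SeqData S hS s₀ m s) {k k' : ℕ} (h : k ≤ k') {r : R}
    (hr : r ∈ S (m k)) : r ∈ S (m k') :=
  hS (hseq.2.1.monotone h) hr

theorem TOW_all (hseq : SeqData S hS s₀ m s) (k : ℕ) {r : R} (hr : r ∈ S (m k))
    (h0 : ∀ i ≤ k, r • s i = 0) (j : ℕ) : r • s j = 0 := by
  have key : ∀ n, ∀ i ≤ k + n, r • s i = 0 := by
    intro n
    induction n with
    | zero => exact h0
    | succ n ih =>
      intro i hi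
      rcases Nat.lt_or_ge i (k + n + 1) with h | h
      · exact ih i (by omega)
      · have h1 : i = k + n + 1 := by omega
        rw [h1]
        exact TOW_step hseq (k + n) (TOW_mono hseq (by omega) hr) ih
  exact key j j (by omega)

theorem TOW_meet (hSML : SML_stmt.{u}) (hMEE : MEE_stmt.{u}) (hcov : ∀ r : R, ∃ n, r ∈ S n)
    (hP : Path S s₀) (hseq : SeqData S hS s₀ m s) (r r' : R) (hr : ∃ j, r • s j ≠ 0)
    (hr' : ∃ j, r' • s j ≠ 0) :
    ∃ a a' : R, (∀ j, a • r • s j = a' • r' • s j) ∧ ∃ j, a • r • s j ≠ 0 := by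
  obtain ⟨n, hn⟩ := hcov r
  obtain ⟨n', hn'⟩ := hcov r'
  have hk : r ∈ S (m (max n n')) :=
    hS ((le_max_left n n').trans (hseq.2.1.le_apply)) hn
  have hk' : r' ∈ S (m (max n n')) :=
    hS ((le_max_right n n').trans (hseq.2.1.le_apply)) hn'
  generalize max n n' = k at hk hk'
  haveI hsim : ∀ k, IsSimpleModule (S (m k)) (VV S s₀ (m k)) := fun k => hP.1 (m k)
  have sm : ∀ q : R, q ∈ S (m k) → (∃ j, q • s j ≠ 0) →
      ∀ y' : Fin (2 * k + 1) → VV S s₀ (m (2 * k)), (∀ i, (y' i : T) = q • s i) →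
        Small (S (m (2 * k))) y' k := by
    intro q hq hq0 y' hy'
    have hy0 : (fun i : Fin (k + 1) =>
        (⟨q • s i, TOW_mem hseq k hq i (Nat.lt_succ_iff.1 i.2)⟩ : VV S s₀ (m k))) ≠ 0 := by
      intro h
      obtain ⟨j, hj⟩ := hq0
      apply hj
      apply TOW_all hseq k hq
      intro i hi
      exact congrArg Subtype.val (congrFun h ⟨i, Nat.lt_succ_of_le hi⟩)
    exact hSML R S hS T s₀ hP m s hseq k k q hq _ (fun i => rfl) hy0 (TOW_small _ hy0)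
      (2 * k) (by omega) y' hy'
  have h2k : r ∈ S (m (2 * k)) := TOW_mono hseq (by omega) hk
  have h2k' : r' ∈ S (m (2 * k)) := TOW_mono hseq (by omega) hk'
  obtain ⟨a, a', h1, i₁, h2⟩ := hMEE (S (m (2 * k))) (VV S s₀ (m (2 * k))) (2 * k + 1) k
    (fun i => ⟨r • s i, TOW_mem hseq (2 * k) h2k i (Nat.lt_succ_iff.1 i.2)⟩)
    (fun i => ⟨r' • s i, TOW_mem hseq (2 * k) h2k' i (Nat.lt_succ_iff.1 i.2)⟩) (by omega)
    (sm r hk hr _ (fun i => rfl)) (sm r' hk' hr' _ (fun i => rfl))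
  refine ⟨a, a', ?_, (i₁ : ℕ), ?_⟩
  · intro j
    have h3 : ((a : R) * r - a' * r') • s j = 0 := by
      apply TOW_all hseq (2 * k)
      · exact (S (m (2 * k))).sub_mem ((S (m (2 * k))).mul_mem a.2 h2k)
          ((S (m (2 * k))).mul_mem a'.2 h2k')
      · intro i hi
        have h4 := congrArg Subtype.val (h1 ⟨i, Nat.lt_succ_of_le hi⟩)
        have h5 : (a : R) • r • s i = (a' : R) • r' • s i := h4
        rw [sub_smul, mul_smul, mul_smul, h5, sub_self]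
    rw [sub_smul, mul_smul, mul_smul] at h3
    exact sub_eq_zero.1 h3
  · intro h
    exact h2 (Subtype.ext h)

theorem TOW_kill (hSML : SML_stmt.{u}) (hDEN : DEN_stmt.{u}) (h0 : s₀ ≠ 0)
    (hP : Path S s₀) (hseq : SeqData S hS s₀ m s) (j : ℕ) :
    ∃ r : R, r • s j = 0 ∧ ∃ i, r • s i ≠ 0 := by
  haveI hsim : ∀ k, IsSimpleModule (S (m k)) (VV S s₀ (m k)) := fun k => hP.1 (m k)
  have hz : ∀ i, (1 : R) • s i = s i := fun i => one_smul R (s i)
  have hy0 : (fun i : Fin (0 + 1) =>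
      (⟨(1 : R) • s i, TOW_mem hseq 0 (S (m 0)).one_mem i (Nat.lt_succ_iff.1 i.2)⟩ :
        VV S s₀ (m 0))) ≠ 0 := by
    intro h
    have h1 : (1 : R) • s 0 = 0 := congrArg Subtype.val (congrFun h 0)
    rw [one_smul, hseq.2.2.1] at h1
    exact h0 h1
  have sm := hSML R S hS T s₀ hP m s hseq 0 0 1 (S (m 0)).one_mem _ (fun i => rfl) hy0
    (TOW_small _ hy0) (max j 1) (by omega)
    (fun i => ⟨(1 : R) • s i, TOW_mem hseq (max j 1) (S (m (max j 1))).one_mem i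
      (Nat.lt_succ_iff.1 i.2)⟩) (fun i => rfl)
  have hjk : j ≤ max j 1 := le_max_left _ _
  have h1k : 1 ≤ max j 1 := le_max_right _ _
  generalize max j 1 = k at sm hjk h1k
  obtain ⟨i₁, hi₁, hij⟩ : ∃ i₁, i₁ ≤ k ∧ j ≠ i₁ := by
    by_cases h : j = 0
    · exact ⟨1, h1k, by omega⟩
    · exact ⟨0, by omega, h⟩
  obtain ⟨J, hJ, hJ'⟩ := sm
  have hJ0 : J = ∅ := Finset.card_eq_zero.1 (by omega)
  have hs0 : s₀ ∈ VV S s₀ (m k) := Submodule.mem_span_singleton_self s₀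
  obtain ⟨a, ha⟩ := hDEN (S (m k)) (VV S s₀ (m k)) (k + 1)
    (fun i => ⟨(1 : R) • s i, TOW_mem hseq k (S (m k)).one_mem i (Nat.lt_succ_iff.1 i.2)⟩)
    (fun i => if (i : ℕ) = i₁ then ⟨s₀, hs0⟩ else 0)
    (fun l hl => by
      have h1 := hJ' l (fun j hj => by rw [hJ0] at hj; exact absurd hj (Finset.notMem_empty _)) hl
      exact Finset.sum_eq_zero fun i _ => by rw [h1 i]; rfl)
  refine ⟨a, ?_, i₁, ?_⟩
  · have h1 := ha ⟨j, Nat.lt_succ_of_le hjk⟩
    rw [if_neg (show ¬ (j : ℕ) = i₁ from hij)] at h1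
    have h2 : (a : R) • (1 : R) • s j = 0 := congrArg Subtype.val h1
    rwa [one_smul] at h2
  · have h1 := ha ⟨i₁, Nat.lt_succ_of_le hi₁⟩
    rw [if_pos rfl] at h1
    have h2 : (a : R) • (1 : R) • s i₁ = s₀ := congrArg Subtype.val h1
    rw [one_smul] at h2
    rw [h2]
    exact h0

end

theorem TOW (hSEQ : SEQ_stmt.{u}) (hSML : SML_stmt.{u}) (hMEE : MEE_stmt.{u})
    (hDEN : DEN_stmt.{u}) : TOW_stmt.{u} := by
  intro R _ S hS hcov T _ _ s₀ e h0 he hP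
  obtain ⟨m, s, hseq⟩ := hSEQ R S hS T s₀ hP
  have hmem : ∀ x : Submodule.span R ({s} : Set (ℕ → T)), ∃ r : R, ∀ j, x.1 j = r • s j := by
    intro x
    obtain ⟨r, hr⟩ := Submodule.mem_span_singleton.1 x.2
    exact ⟨r, fun j => by rw [← hr]; rfl⟩
  have hne : ∀ x : Submodule.span R ({s} : Set (ℕ → T)), x ≠ 0 → ∃ j, x.1 j ≠ 0 := by
    intro x hx
    have h1 : x.1 ≠ 0 := fun h => hx (Subtype.ext h)
    exact Function.ne_iff.1 h1
  have hmeet : ∀ x x' : Submodule.span R ({s} : Set (ℕ → T)), x ≠ 0 → x' ≠ 0 →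
      ∃ a a' : R, a • x = a' • x' ∧ a • x ≠ 0 := by
    intro x x' hx hx'
    obtain ⟨r, hr⟩ := hmem x
    obtain ⟨r', hr'⟩ := hmem x'
    obtain ⟨j, hj⟩ := hne x hx
    obtain ⟨j', hj'⟩ := hne x' hx'
    rw [hr] at hj
    rw [hr'] at hj'
    obtain ⟨a, a', h1, i, h2⟩ := TOW_meet hSML hMEE hcov hP hseq r r' ⟨j, hj⟩ ⟨j', hj'⟩
    refine ⟨a, a', ?_, ?_⟩
    · apply Subtype.ext
      funext n
      show a • x.1 n = a' • x'.1 n
      rw [hr, hr']
      exact h1 n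
    · intro h
      apply h2
      have h3 : a • x.1 i = 0 := congrFun (congrArg Subtype.val h) i
      rw [hr] at h3
      exact h3
  have hs : s ∈ Submodule.span R ({s} : Set (ℕ → T)) := Submodule.mem_span_singleton_self s
  have hs0 : (⟨s, hs⟩ : Submodule.span R ({s} : Set (ℕ → T))) ≠ 0 := by
    intro h
    have h1 : s 0 = 0 := congrFun (congrArg Subtype.val h) 0
    rw [hseq.2.2.1] at h1
    exact h0 h1
  refine ⟨Submodule.span R ({s} : Set (ℕ → T)), inferInstance, inferInstance, ⟨⟨_, _, hs0⟩, ?_⟩,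
    ?_, ⟨s, hs⟩, ?_⟩
  · intro A B hA hB hAB
    obtain ⟨x, hxA, hx⟩ := (Submodule.ne_bot_iff A).1 hA
    obtain ⟨x', hxB, hx'⟩ := (Submodule.ne_bot_iff B).1 hB
    obtain ⟨a, a', h1, h2⟩ := hmeet x x' hx hx'
    have h3 : a • x ∈ A ⊓ B := ⟨A.smul_mem a hxA, by rw [h1]; exact B.smul_mem a' hxB⟩
    rw [hAB] at h3
    exact h2 ((Submodule.mem_bot R).1 h3)
  · intro B hB
    haveI := hB
    haveI : Nontrivial B := IsSimpleModule.nontrivial R B
    obtain ⟨y, hy⟩ := exists_ne (0 : B)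
    have hy1 : y.1 ≠ 0 := fun h => hy (Subtype.ext h)
    obtain ⟨j, hj⟩ := hne y.1 hy1
    obtain ⟨r, hr0, i, hri⟩ := TOW_kill hSML hDEN h0 hP hseq j
    have hz : r • (⟨s, hs⟩ : Submodule.span R ({s} : Set (ℕ → T))) ≠ 0 := by
      intro h
      exact hri (congrFun (congrArg Subtype.val h) i)
    obtain ⟨a, a', h1, h2⟩ := hmeet y.1 _ hy1 hz
    have hy' : a • y ≠ 0 := fun h => h2 (congrArg Subtype.val h)
    obtain ⟨c, hc⟩ := IsSimpleModule.toSpanSingleton_surjective R hy' y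
    rw [LinearMap.toSpanSingleton_apply] at hc
    apply hj
    rw [← hc]
    show c • ((a • y.1 : Submodule.span R ({s} : Set (ℕ → T))).1 j) = 0
    rw [h1]
    show c • a' • r • s j = 0
    rw [hr0, smul_zero, smul_zero]
  · intro h
    have h1 : e • s 0 = 0 := congrFun (congrArg Subtype.val h) 0
    rw [hseq.2.2.1, he] at h1
    exact h0 h1

end Pool.Agent.helper5.ZI
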